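import Pool.Agent.Helper45.FG.St

/-!
Module CST of project FG (MP_7221b2_al): constituents of an object near an extreme ray.
-/

set_option autoImplicit false

open scoped BigOperators

namespace Pool.Agent.Helper98.FG

open Pool.Agent.Helper45.FG

theorem hCST (hFIN : StFIN) (hFGK : StFGK) (hFEX : StFEX) (hNRM : StNRM) (hSTB : StSTB) :
    StCST := by
  classical
  intro K hfd hgal hn β t0 B C hB ht0 hmov hC I _ R d hd n hβ
  have hmem : ∀ i, n i ≠ 0 → d i ∈ K := by
    intro i hi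
    apply hFGK K hfd I R d hd n _ i hi
    rw [← hβ]
    exact β.2
  let X : I → K := fun i => if h : n i ≠ 0 then ⟨d i, hmem i h⟩ else 0
  have hX : ∀ i, n i ≠ 0 → ((X i : K) : ℝ) = d i := by
    intro i hi
    simp only [X, dif_pos hi]
  have hβK : β = ∑ i, (n i : K) * X i := by
    apply Subtype.ext
    rw [hβ]
    have h1 : ((∑ i, (n i : K) * X i : K) : ℝ) = ∑ i, (n i : ℝ) * (X i : ℝ) := by
      have h2 := map_sum (algebraMap K ℝ) (fun i => (n i : K) * X i) Finset.univ
      have h3 : (algebraMap K ℝ) (∑ i, (n i : K) * X i) = ((∑ i, (n i : K) * X i : K) : ℝ) := rfl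
      rw [← h3, h2]
      apply Finset.sum_congr rfl
      intro i _
      rw [map_mul, map_natCast]
      rfl
    rw [h1]
    apply Finset.sum_congr rfl
    intro i _
    by_cases hi : n i = 0
    · rw [hi]
      simp
    · rw [hX i hi]
  have htβ : ∀ t : K ≃ₐ[ℚ] K, ((β : ℝ) - ((t β : K) : ℝ))
      = ∑ i, (n i : ℝ) * ((X i : ℝ) - ((t (X i) : K) : ℝ)) := by
    intro t
    have h1 : β - t β = ∑ i, (n i : K) * (X i - t (X i)) := by
      have h2 : t β = ∑ i, (n i : K) * t (X i) := by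
        conv_lhs => rw [hβK]
        rw [map_sum]
        apply Finset.sum_congr rfl
        intro i _
        rw [map_mul, map_natCast]
      rw [h2]
      conv_lhs => rw [hβK]
      rw [← Finset.sum_sub_distrib]
      apply Finset.sum_congr rfl
      intro i _
      ring
    have h4 := congrArg (algebraMap K ℝ) h1
    rw [map_sub, map_sum] at h4
    have h5 : ((β : ℝ) - ((t β : K) : ℝ)) = (algebraMap K ℝ) β - (algebraMap K ℝ) (t β) := rfl
    rw [h5, h4]
    apply Finset.sum_congr rfl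
    intro i _
    rw [map_mul, map_natCast, map_sub]
    rfl
  have hnn : ∀ (t : K ≃ₐ[ℚ] K) (i : I), n i ≠ 0 → |((t (X i) : K) : ℝ)| ≤ (X i : ℝ) := by
    intro t i hi
    exact hFEX K hfd I R d hd t i (X i) (hX i hi)
  have hnn2 : ∀ (t : K ≃ₐ[ℚ] K) (i : I), n i ≠ 0 → 0 ≤ (X i : ℝ) - ((t (X i) : K) : ℝ) := by
    intro t i hi
    have h1 := hnn t i hi
    have h2 := le_abs_self ((t (X i) : K) : ℝ)
    linarith
  have hle : ∀ (t : K ≃ₐ[ℚ] K) (i : I), n i ≠ 0 →
      (X i : ℝ) - ((t (X i) : K) : ℝ) ≤ (β : ℝ) - ((t β : K) : ℝ) := by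
    intro t i hi
    rw [htβ t]
    have h1 : (n i : ℝ) * ((X i : ℝ) - ((t (X i) : K) : ℝ))
        ≤ ∑ i, (n i : ℝ) * ((X i : ℝ) - ((t (X i) : K) : ℝ)) := by
      apply Finset.single_le_sum (f := fun i => (n i : ℝ) * ((X i : ℝ) - ((t (X i) : K) : ℝ)))
        _ (Finset.mem_univ i)
      intro j _
      by_cases hj : n j = 0
      · simp [hj]
      · exact mul_nonneg (Nat.cast_nonneg _) (hnn2 t j hj)
    have h2 : (1 : ℝ) ≤ (n i : ℝ) := by
      exact_mod_cast Nat.one_le_iff_ne_zero.2 hi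
    have h3 := hnn2 t i hi
    nlinarith
  have hbound : ∀ i, n i ≠ 0 → ∀ t : K ≃ₐ[ℚ] K, t ≠ t0 →
      ((X i : ℝ) - ((t (X i) : K) : ℝ)) ^ (Module.finrank ℚ K - 2) * B ≤ C := by
    intro i hi t ht
    refine le_trans ?_ (hC t ht)
    apply mul_le_mul_of_nonneg_right _ hB.le
    exact pow_le_pow_left₀ (hnn2 t i hi) (hle t i hi) _
  refine ⟨?_, ?_⟩
  · intro i hi
    exact ⟨X i, hX i hi, fun t => ⟨hnn2 t i hi, fun ht => hbound i hi t ht⟩⟩
  · -- some constituent is moved
    have hex : ∃ i, n i ≠ 0 ∧ ∃ s : K ≃ₐ[ℚ] K, s (X i) ≠ X i := by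
      by_contra hcon
      push Not at hcon
      obtain ⟨t, ht⟩ := hmov
      apply ht
      conv_lhs => rw [hβK]
      conv_rhs => rw [hβK]
      rw [map_sum]
      apply Finset.sum_congr rfl
      intro i _
      rw [map_mul, map_natCast]
      by_cases hi : n i = 0
      · simp [hi]
      · rw [hcon i hi t]
    obtain ⟨i, hi, hs⟩ := hex
    obtain ⟨t, ht1, ht0', htx⟩ := hSTB K hfd hgal hn (X i) t0 hs
    refine ⟨i, hi, X i, hX i hi, ⟨t, ht1, ht0', ?_⟩, ?_⟩
    · have h1 := hnn2 t i hi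
      have h2 : ((t (X i) : K) : ℝ) ≠ (X i : ℝ) := fun h => htx (Subtype.ext h)
      have h3 : ((t (X i) : K) : ℝ) ≤ (X i : ℝ) := by linarith
      exact lt_of_le_of_ne h3 h2
    · haveI : Finite (K ≃ₐ[ℚ] K) := inferInstance
      haveI : Fintype (K ≃ₐ[ℚ] K) := Fintype.ofFinite _
      let T : Finset (K ≃ₐ[ℚ] K) := Finset.univ.filter (fun t => t ≠ t0)
      have hT : T.Nonempty := ⟨1, by simp only [T, Finset.mem_filter, Finset.mem_univ, true_and]
                                     exact fun h => ht0 h.symm⟩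
      obtain ⟨t1, ht1m, ht1max⟩ := Finset.exists_max_image T
        (fun t => (β : ℝ) - ((t β : K) : ℝ)) hT
      have ht1ne : t1 ≠ t0 := by
        simpa [T] using ht1m
      have hint : IsIntegral ℤ (X i) := by
        have h1 := (hFIN I R d hd).2.1 i
        rw [← hX i hi] at h1
        exact (isIntegral_algHom_iff ((IsScalarTower.toAlgHom ℤ K ℝ)) (algebraMap K ℝ).injective).1 h1
      have hmain := hNRM K hfd hgal (X i) t0 ((β : ℝ) - ((t1 β : K) : ℝ)) hint
        (fun t => hnn t i hi)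
        (fun t ht => (hle t i hi).trans (ht1max t (by simp [T, ht]))) hs
      have hg := hC t1 ht1ne
      have hgn : 0 ≤ ((β : ℝ) - ((t1 β : K) : ℝ)) ^ (Module.finrank ℚ K - 2) := by
        apply pow_nonneg
        exact le_trans (hnn2 t1 i hi) (hle t1 i hi)
      have h1 : B * 1 ≤ B * (((β : ℝ) - ((t1 β : K) : ℝ)) ^ (Module.finrank ℚ K - 2)
          * (2 * (X i : ℝ)) ^ 2) := mul_le_mul_of_nonneg_left hmain hB.le
      have h2 : (((β : ℝ) - ((t1 β : K) : ℝ)) ^ (Module.finrank ℚ K - 2) * B)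
          * (2 * (X i : ℝ)) ^ 2 ≤ C * (2 * (X i : ℝ)) ^ 2 :=
        mul_le_mul_of_nonneg_right hg (sq_nonneg _)
      nlinarith

end Pool.Agent.Helper98.FG
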